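import Pool.Agent.H.MP_182b9e_gt.A

namespace Pool.Agent.Results.MP_84aa88_gt.NotCanonical

open Pool.Agent.H.MP_182b9e_gt Set

theorem result : ∃ S : Set (E 2) → Set (E 2),
    (∀ K, Cls false K → Cls false (S K) ∧ -S K = S K) ∧
    (∀ K L, Cls false K → Cls false L → K ⊆ L → S K ⊆ S L) ∧
    (∀ K, Cls false K → -K = K → S K = K) ∧
    (∀ K, Cls false K → mw (S K) = mw K) ∧
    ∃ p q, p ≠ q ∧ ∀ r s, S (segment ℝ p q) ≠ segment ℝ r s := by
  refine ⟨D, fun K => D_cls two_pos, fun K L => D_mono, fun K => D_fix, fun K hK => WD hK.1 hK.2.2.1,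
    !₂[1, 0], !₂[0, 1], fun e => by simpa using congrArg (· 0) e, fun r s e => ?_⟩
  set K := segment ℝ (!₂[1, 0] : E 2) !₂[0, 1] with hK
  have c : IsCompact K := by rw [hK, segment_eq_image]; exact isCompact_Icc.image (by fun_prop)
  have n : K.Nonempty := ⟨_, left_mem_segment _ _ _⟩
  have l := lam0 c n
  have z : (0 : E 2) ∈ A K := ⟨(0, _), ⟨⟨le_rfl, l⟩, left_mem_segment _ _ _⟩, by simp⟩
  have m : ∀ y ∈ K, (lam K / 2) • y ∈ segment ℝ r s := fun y hy =>
    e ▸ ⟨(_, 0), ⟨⟨(lam K, y), ⟨⟨l, le_rfl⟩, hy⟩, rfl⟩, z⟩, by simp only; module⟩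
  have l0 : lam K = 0 := by
    obtain ⟨a, a', -, -, ha, e1⟩ := m _ (left_mem_segment _ _ _)
    obtain ⟨b, b', -, -, hb, e2⟩ := m _ (right_mem_segment _ _ _)
    obtain ⟨t, t', -, -, ht, e3⟩ := e.subset ⟨(0, 0), ⟨z, z⟩, rfl⟩
    have x1 := congrArg (· 0) e1; have y1 := congrArg (· 1) e1
    have x2 := congrArg (· 0) e2; have y2 := congrArg (· 1) e2
    have x3 := congrArg (· 0) e3; have y3 := congrArg (· 1) e3
    simp at x1 y1 x2 y2 x3 y3
    obtain rfl : a' = 1 - a := by linarith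
    obtain rfl : b' = 1 - b := by linarith
    obtain rfl : t' = 1 - t := by linarith
    have : (lam K / 2) * (lam K / 2) = 0 := by
      have u1 : lam K / 2 = (a - t) * (r 0 - s 0) := by linarith
      have u2 : lam K / 2 = (b - t) * (r 1 - s 1) := by linarith
      have u3 : (a - t) * (r 1 - s 1) = 0 := by linarith
      calc _ = ((a - t) * (r 0 - s 0)) * ((b - t) * (r 1 - s 1)) := by rw [← u1, ← u2]
        _ = ((a - t) * (r 1 - s 1)) * ((b - t) * (r 0 - s 0)) := by ring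
        _ = 0 := by rw [u3, zero_mul]
    nlinarith
  exact (lam_pos c ⟨_, left_mem_segment _ _ _, _, right_mem_segment _ _ _, fun e => by simpa using congrArg (· 0) e⟩).ne' l0

end Pool.Agent.Results.MP_84aa88_gt.NotCanonical
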